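import Pool.Agent.U918.LP.Gold

/-!
# Goldbach representations with the exact twin-prime condition on the index, for almost all `n`

For almost all `n` we count the primes `q` of the question, with no shift in any of the conditions: `2 n - q` is prime
and `p_{q+2} + 2` is prime. Let `w` be ANY bounded real weight. For all but a share `log ^ (-U) X` of the `n ≤ X / 2`
the sum of `w q` over the primes `q` with `2 n - q` and `p_{q+2} + 2` prime is the sum of `w q / (V z log (2 n - q))`
over the primes `q` with `p_{q+2} + 2` prime and `2 n - q` free of primes `≤ z`, up to an error `X / log ^ D X`; here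
`z` is a power of `log X` and `V z = ∏_{p ≤ z} (1 - 1/p)`. This holds simultaneously for all initial intervals
`q ≤ y`, `y ≤ X`, and all residue classes of `q` to all moduli up to `log ^ K X`, and also for several `n_i` at once:
the primes `q` for which all the numbers `2 n_i - q` are prime.
-/

set_option autoImplicit false

open Finset

namespace Pool.Agent.Results.MP_0ec542_nt.AlmostAllEvenNumbers

/-- the product of `1 - 1/p` over the primes `p ≤ z` -/
noncomputable def V (z : ℕ) : ℝ := ∏ p ∈ (Icc 1 z).filter Nat.Prime, (1 - 1 / (p : ℝ))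

/-- `q` is a prime such that `p_{q+2} + 2` is prime, where `p_k` is the `k`-th prime (`Nat.nth Nat.Prime (k - 1)`) -/
def TwinIndex (q : ℕ) : Prop := q.Prime ∧ (Nat.nth Nat.Prime (q + 1) + 2).Prime

open Classical in
/-- the sum of `w q` over the `q ≤ y` with `TwinIndex q`, `q ≡ a mod m`, for which all the numbers `2 n i - q` are
prime -/
noncomputable def primeSum {r : ℕ} (w : ℕ → ℝ) (n : Fin r → ℕ) (m a y : ℕ) : ℝ :=
  ∑ q ∈ (Icc 1 y).filter (fun q => TwinIndex q ∧ q ≡ a [MOD m] ∧ ∀ i, (2 * n i - q).Prime), w q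

open Classical in
/-- the sum of `w q / ∏ (V z · log (2 n i - q))` over the `q ≤ y` with `TwinIndex q`, `q ≡ a mod m`, for which no prime
`p ≤ z` divides any of the numbers `2 n i - q` -/
noncomputable def modelSum {r : ℕ} (z : ℕ) (w : ℕ → ℝ) (n : Fin r → ℕ) (m a y : ℕ) : ℝ :=
  ∑ q ∈ (Icc 1 y).filter (fun q => TwinIndex q ∧ q ≡ a [MOD m] ∧
    ∀ i, ∀ p : ℕ, p.Prime → p ≤ z → ¬ p ∣ 2 * n i - q),
    w q * ∏ i, (V z * Real.log ((2 * n i - q : ℕ) : ℝ))⁻¹

open Classical in
/-- **The theorem.** For all `r`, `U`, `D`, `K` there is `B₀` such that for every `E`, every large `X`, every integer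
`z` with `log ^ B₀ X ≤ z ≤ log ^ E X` and EVERY weight `w` with `|w q| ≤ 1`: for all but at most `X ^ r / log ^ U X` of
the vectors `n` of integers `1 ≤ n i ≤ X / 2`, one has for all `y ≤ X`, all moduli `1 ≤ m ≤ log ^ K X` and all classes
`a` that `primeSum w n m a y` and `modelSum z w n m a y` differ by at most `X / log ^ D X`. -/
theorem result (r U D K : ℕ) :
    ∃ B₀ : ℕ, ∀ E : ℕ, ∃ X₀ : ℕ, ∀ X : ℕ, X₀ ≤ X → ∀ z : ℕ, Real.log X ^ B₀ ≤ z → (z : ℝ) ≤ Real.log X ^ E →
    ∀ w : ℕ → ℝ, (∀ q, |w q| ≤ 1) →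
    (((Fintype.piFinset (fun _ : Fin r => Icc 1 (X / 2))).filter (fun n =>
      ∃ y ≤ X, ∃ m a : ℕ, 1 ≤ m ∧ (m : ℝ) ≤ Real.log X ^ K ∧
        (X : ℝ) / Real.log X ^ D < |primeSum w n m a y - modelSum z w n m a y|)).card : ℝ) ≤
      (X : ℝ) ^ r / Real.log X ^ U :=
  Pool.Agent.U918.LP.gold r TwinIndex U D K

end Pool.Agent.Results.MP_0ec542_nt.AlmostAllEvenNumbers
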