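import Pool.Agent.U918.LP.Seqs

/-!
# Goldbach pairs `q + (2n - q)` and `p_{q+2} + 2 h` prime for almost all `h`, for every `n`, with arbitrary weights

The question asks, for every `n > 2`, for primes `q`, `2 n - q` with `p_{q+2} + 2` prime (`p_j` is the `j`-th prime). Here
the Goldbach condition is kept, for EVERY `n`: let `w` be any bounded real weight on the `q`. For all but a share
`log ^ (-U) X` of the vectors `(h₁, …, h_r)` of integers `1 ≤ h_i ≤ B X`, the sum of `w q` over the primes `q` with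
`2 n - q` prime and `p_{q+2} ≤ y` for which all the numbers `p_{q+2} + 2 h_i` are prime is the sum of
`w q ∏ 1 / (V z log (p_{q+2} + 2 h_i))` over those `q` for which all the numbers `p_{q+2} + 2 h_i` are free of primes
`≤ z`, up to an error `X / log ^ D X`; here `z` is a power of `log X`, `V z = ∏_{l ≤ z} (1 - 1/l)`, and this holds
simultaneously for all `y ≤ X` (for example `y = X = p_{2n+2}`, which gives all `q < 2 n`), and all residue classes of
`p_{q+2}` to all moduli up to `log ^ K X`. The condition of the question is `h = 1`.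
-/

set_option autoImplicit false

open Finset

namespace Pool.Agent.Results.MP_0ec542_nt.ArbitraryWeights

/-- the product of `1 - 1/l` over the primes `l ≤ z` -/
noncomputable def V (z : ℕ) : ℝ := ∏ l ∈ (Icc 1 z).filter Nat.Prime, (1 - 1 / (l : ℝ))

/-- the `m`-th prime -/
noncomputable def p (m : ℕ) : ℕ := Nat.nth Nat.Prime (m - 1)

/-- the prime `p_{q+2}` -/
noncomputable def s (q : ℕ) : ℕ := p (q + 2)

/-- `q` and `2 n - q` are prime -/
def Goldbach (n q : ℕ) : Prop := q.Prime ∧ (2 * n - q).Prime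

open Classical in
/-- the sum of `w q` over the `q` with `Goldbach n q`, `s q ≤ y`, `s q ≡ a mod c`, for which all the numbers
`s q + 2 h i` are prime (here `q ≤ s q`) -/
noncomputable def primeSum {r : ℕ} (n : ℕ) (w : ℕ → ℝ) (h : Fin r → ℕ) (c a y : ℕ) : ℝ :=
  ∑ q ∈ (Icc 1 y).filter (fun q => Goldbach n q ∧ s q ≤ y ∧ s q ≡ a [MOD c] ∧ ∀ i, (s q + 2 * h i).Prime), w q

open Classical in
/-- the sum of `w q / ∏ (V z · log (s q + 2 h i))` over the `q` with `Goldbach n q`, `s q ≤ y`, `s q ≡ a mod c`, for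
which no prime `l ≤ z` divides any of the numbers `s q + 2 h i` -/
noncomputable def modelSum {r : ℕ} (z n : ℕ) (w : ℕ → ℝ) (h : Fin r → ℕ) (c a y : ℕ) : ℝ :=
  ∑ q ∈ (Icc 1 y).filter (fun q => Goldbach n q ∧ s q ≤ y ∧ s q ≡ a [MOD c] ∧
    ∀ i, ∀ l : ℕ, l.Prime → l ≤ z → ¬ l ∣ s q + 2 * h i),
    w q * ∏ i, (V z * Real.log ((s q + 2 * h i : ℕ) : ℝ))⁻¹

theorem s_lt (a b : ℕ) (_ : 1 ≤ a) (hab : a < b) : s a < s b :=
  Pool.Agent.U918.LP.pr_lt (a + 2) (b + 2) (by omega) (by omega)

theorem s_ge (m : ℕ) (_ : 1 ≤ m) : m ≤ s m := by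
  have h1 := Pool.Agent.U918.LP.pr_ge (m + 2) (by omega)
  have h3 : s m = Pool.Agent.U918.LP.pr (m + 2) := rfl
  omega

open Classical in
/-- **The theorem.** For all `r`, `B`, `U`, `D`, `K` there is `B₀` such that for every `E`, every large `X`, every
integer `z` with `log ^ B₀ X ≤ z ≤ log ^ E X`, EVERY `n` and EVERY weight `w` with `|w q| ≤ 1`: for all but at most
`X ^ r / log ^ U X` of the vectors `h` of integers `1 ≤ h i ≤ B X`, one has for all `y ≤ X`, all moduli
`1 ≤ c ≤ log ^ K X` and all classes `a` that `primeSum n w h c a y` and `modelSum z n w h c a y` differ by at most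
`X / log ^ D X`. -/
theorem result (r B U D K : ℕ) :
    ∃ B₀ : ℕ, ∀ E : ℕ, ∃ X₀ : ℕ, ∀ X : ℕ, X₀ ≤ X → ∀ z : ℕ, Real.log X ^ B₀ ≤ z → (z : ℝ) ≤ Real.log X ^ E →
    ∀ n : ℕ, ∀ w : ℕ → ℝ, (∀ q, |w q| ≤ 1) →
    (((Fintype.piFinset (fun _ : Fin r => Icc 1 (B * X))).filter (fun h =>
      ∃ y ≤ X, ∃ c a : ℕ, 1 ≤ c ∧ (c : ℝ) ≤ Real.log X ^ K ∧
        (X : ℝ) / Real.log X ^ D < |primeSum n w h c a y - modelSum z n w h c a y|)).card : ℝ) ≤
      (X : ℝ) ^ r / Real.log X ^ U := by
  obtain ⟨B₀, h0⟩ := Pool.Agent.U918.LP.any_seq r B U D K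
  refine ⟨B₀, fun E => ?_⟩
  obtain ⟨x0, hx0⟩ := h0 E
  refine ⟨x0, fun X hX z hz1 hz2 n w hw => ?_⟩
  have hw' : ∀ q, |(if Goldbach n q then w q else 0)| ≤ 1 := by
    intro q
    split_ifs
    · exact hw q
    · rw [abs_zero]
      exact zero_le_one
  refine le_trans (le_of_eq ?_) (hx0 X hX z hz1 hz2 s s_lt s_ge (fun q => if Goldbach n q then w q else 0) hw')
  have e1 : ∀ (h : Fin r → ℕ) (c a y : ℕ), primeSum n w h c a y =
      Pool.Agent.U918.LP.PQ s (fun q => if Goldbach n q then w q else 0) h c a y := by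
    intro h c a y
    unfold primeSum Pool.Agent.U918.LP.PQ
    rw [sum_filter, sum_filter]
    apply sum_congr rfl
    intro q _
    by_cases h1 : Goldbach n q <;> simp [h1]
  have e2 : ∀ (h : Fin r → ℕ) (c a y : ℕ), modelSum z n w h c a y =
      Pool.Agent.U918.LP.MQ s z (fun q => if Goldbach n q then w q else 0) h c a y := by
    intro h c a y
    unfold modelSum Pool.Agent.U918.LP.MQ
    have hV : Pool.Agent.H373R2.T7.Vz z = V z := rfl
    rw [hV, sum_filter, sum_filter]
    apply sum_congr rfl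
    intro q _
    by_cases h1 : Goldbach n q <;> simp [h1]
  simp only [e1, e2]

end Pool.Agent.Results.MP_0ec542_nt.ArbitraryWeights
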