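import Pool.Agent.U308.AW.Core

/-!
# Goldbach representations with the exact twin-prime condition on the index, for all even numbers near almost all
very smooth numbers

We count the primes `q` of the question, with no shift in any of the conditions: `2 n - q` is prime and `p_{q+2} + 2` is
prime, with arbitrary bounded weights, in arbitrary classes to small moduli and in all initial intervals. For all the
even numbers `2 n` near almost all members of very thin families (integers composed of primes from an arbitrary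
set of more than `log ^ (1 + δ) N` primes, for example the `y`-smooth numbers with `y ≥ log ^ (1 + δ) N`; there can be
fewer than `N ^ δ` of them) these sums are determined by the primes `q` with `p_{q+2} + 2` prime and their classes
modulo small primes.

Method (helper308). The weighted law of `Pool.Agent.Results.MP_e87c7d_nt.SmoothShifts` (a weight which counts the
representations `v = m₁ m₂ u`, with a small exponential sum, dominates the uniform measure up to a factor `log N`) and
the replacement of the von Mangoldt function by its sieve model (`Pool.Agent.U308.LP.sm_repZ2`, starting files N469 and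
Y885), here for families of weights (`Pool.Agent.U308.AW.aw`).
-/

set_option autoImplicit false

namespace Pool.Agent.Results.MP_0ec542_nt.VerySmoothNumbers

open Finset

/-- The integers `1 ≤ v ≤ N` all of whose prime factors belong to `P`. -/
def composedOf (P : Finset ℕ) (N : ℕ) : Finset ℕ := (Icc 1 N).filter fun v => v.primeFactors ⊆ P

/-- The `y`-smooth integers `1 ≤ v ≤ N`: all of whose prime factors are at most `y`. -/
def smooth (y N : ℕ) : Finset ℕ := (Icc 1 N).filter fun v => ∀ p ∈ v.primeFactors, p ≤ y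

/-- the product of `1 - 1/p` over the primes `p ≤ z` -/
noncomputable def V (z : ℕ) : ℝ := ∏ p ∈ (Icc 1 z).filter Nat.Prime, (1 - 1 / (p : ℝ))

/-- `q` is a prime such that `p_{q+2} + 2` is prime, where `p_k` is the `k`-th prime (`Nat.nth Nat.Prime (k - 1)`) -/
def TwinIndex (q : ℕ) : Prop := q.Prime ∧ (Nat.nth Nat.Prime (q + 1) + 2).Prime

open Classical in
/-- the sum of `w q log (2 n - q)` over the `q ≤ y` with `TwinIndex q`, `q ≡ a mod d` and `2 n - q` prime -/
noncomputable def primeSum (w : ℕ → ℝ) (n d a y : ℕ) : ℝ :=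
  ∑ q ∈ (Icc 1 y).filter (fun q => TwinIndex q ∧ q ≡ a [MOD d] ∧ (2 * n - q).Prime), w q * Real.log ((2 * n - q : ℕ) : ℝ)

open Classical in
/-- the sum of `w q / V z` over the `q ≤ y` with `TwinIndex q`, `q ≡ a mod d`, `q < 2 n` and `2 n - q` divisible by no
prime `p ≤ z` -/
noncomputable def modelSum (z : ℕ) (w : ℕ → ℝ) (n d a y : ℕ) : ℝ :=
  ∑ q ∈ (Icc 1 y).filter (fun q => TwinIndex q ∧ q ≡ a [MOD d] ∧ q < 2 * n ∧ ∀ p : ℕ, p.Prime → p ≤ z → ¬ p ∣ 2 * n - q),
    w q / V z

/-- the sum over primes and the model agree up to `N / log ^ D N`, for all the weights `w l`, all initial intervals and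
all the classes to all the moduli `d ≤ log ^ Q N` -/
def Good (N z Q D : ℕ) {L : ℕ} (w : Fin L → ℕ → ℝ) (n : ℕ) : Prop :=
  ∀ l, ∀ y d a : ℕ, 1 ≤ d → (d : ℝ) ≤ Real.log N ^ Q →
    |primeSum (w l) n d a y - modelSum z (w l) n d a y| ≤ N / Real.log N ^ D

lemma prime_eq (w : ℕ → ℝ) (n d a y : ℕ) [DecidablePred TwinIndex] :
    primeSum w n d a y = Pool.Agent.U308.AW.PS (fun q => if TwinIndex q then w q else 0) (2 * n) d a y := by
  classical
  unfold primeSum Pool.Agent.U308.AW.PS
  rw [sum_filter, sum_filter]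
  apply sum_congr rfl
  intro q _
  by_cases h1 : TwinIndex q
  · by_cases h2 : q ≡ a [MOD d] ∧ (2 * n - q).Prime
    · rw [if_pos ⟨h1, h2⟩, if_pos h2]
      simp only [if_pos h1]
    · rw [if_neg (fun h => h2 h.2), if_neg h2]
  · rw [if_neg (fun h => h1 h.1)]
    simp only [if_neg h1, zero_mul, ite_self]

lemma model_eq (z : ℕ) (w : ℕ → ℝ) (n d a y : ℕ) [DecidablePred TwinIndex] :
    modelSum z w n d a y = Pool.Agent.U308.AW.MS z (fun q => if TwinIndex q then w q else 0) (2 * n) d a y := by
  classical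
  unfold modelSum Pool.Agent.U308.AW.MS
  rw [sum_filter, sum_filter]
  apply sum_congr rfl
  intro q _
  have e : V z = Pool.Agent.U308.AW.V z := rfl
  rw [e]
  by_cases h1 : TwinIndex q
  · by_cases h2 : q ≡ a [MOD d] ∧ q < 2 * n ∧ ∀ p : ℕ, p.Prime → p ≤ z → ¬ p ∣ 2 * n - q
    · rw [if_pos ⟨h1, h2⟩, if_pos h2]
      simp only [if_pos h1]
    · rw [if_neg (fun h => h2 h.2), if_neg h2]
  · rw [if_neg (fun h => h1 h.1)]
    simp only [if_neg h1, zero_div, ite_self]

open Classical in
/-- Let `A`, `B`, `D`, `K`, `Q`, `T`, `U`, the integer `κ ≠ 0` and `δ > 0` be fixed. There is `B₀` such that for every `E`,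
every large `N` and every integer `z` with `log ^ B₀ N ≤ z ≤ log ^ E N` the following holds, for every `y ≤ log ^ K N`,
every integer `c` with `|c| ≤ B N` and any at most `log ^ T N` functions `w l` bounded by `1` (for example one function,
`w = 1`).

(1) Let `P` be an arbitrary set of primes which are at most `y`, with at least `y ^ (1 / 2 + δ)` and at least
`log ^ (1 + δ) N` elements. Then for all the integers `v ≤ N` composed of primes from `P`, up to a proportion of at most
`1 / log ^ U N` of them, ALL the natural numbers `n` with `|2 n - (c + κ v)| ≤ log ^ A N` are `Good`: the sums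
`primeSum` and `modelSum` differ by at most `N / log ^ D N`, for all `l`, all initial intervals `q ≤ y'` and all
classes to all moduli `d ≤ log ^ Q N`.

(2) In particular this holds for all the `y`-smooth integers `v ≤ N`, up to a proportion of at most `1 / log ^ U N` of
them, if `y ≥ log ^ (1 + δ) N`. -/
theorem result (A B D K Q T U : ℕ) (κ : ℤ) (hκ : κ ≠ 0) (δ : ℝ) (hδ : 0 < δ) :
    ∃ B₀ : ℕ, ∀ E : ℕ, ∃ N₀ : ℕ, ∀ N, N₀ ≤ N → ∀ z : ℕ, Real.log N ^ B₀ ≤ z → (z : ℝ) ≤ Real.log N ^ E →
      ∀ y : ℕ, (y : ℝ) ≤ Real.log N ^ K → ∀ c : ℤ, |c| ≤ B * N →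
      ∀ L : ℕ, (L : ℝ) ≤ Real.log N ^ T → ∀ w : Fin L → ℕ → ℝ, (∀ l q, |w l q| ≤ 1) →
      (∀ P : Finset ℕ, (∀ p ∈ P, p.Prime ∧ p ≤ y) → (y : ℝ) ^ (1 / 2 + δ) ≤ P.card → Real.log N ^ (1 + δ) ≤ P.card →
        (((composedOf P N).filter fun v : ℕ => ∃ n : ℕ, |((2 * n - (c + κ * v) : ℤ) : ℝ)| ≤ Real.log N ^ A ∧
          ¬ Good N z Q D w n).card : ℝ) ≤ ((composedOf P N).card : ℝ) / Real.log N ^ U) ∧
      (Real.log N ^ (1 + δ) ≤ y →
        (((smooth y N).filter fun v : ℕ => ∃ n : ℕ, |((2 * n - (c + κ * v) : ℤ) : ℝ)| ≤ Real.log N ^ A ∧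
          ¬ Good N z Q D w n).card : ℝ) ≤ ((smooth y N).card : ℝ) / Real.log N ^ U) := by
  obtain ⟨B₀, hB⟩ := Pool.Agent.U308.AW.aw2 κ hκ K B A T Q D U δ hδ
  refine ⟨B₀, fun E => ?_⟩
  obtain ⟨N₀, h0⟩ := hB E
  refine ⟨N₀, fun N hN z hz1 hz2 y hy' c hc L hL w hw => ?_⟩
  refine h0 N hN z hz1 hz2 y hy' (fun v : ℕ => ∃ n : ℕ, |((2 * n - (c + κ * v) : ℤ) : ℝ)| ≤ Real.log N ^ A ∧
    ¬ Good N z Q D w n) (fun v => inferInstance) ⟨c, hc, L, hL, fun l q => if TwinIndex q then w l q else 0, ?_, ?_⟩
  · intro l q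
    simp only
    split_ifs
    · exact hw l q
    · rw [abs_zero]; exact zero_le_one
  · rintro v ⟨n, hn, hbad⟩
    unfold Good at hbad
    push Not at hbad
    obtain ⟨l, y', d, a, hd1, hd2, hlt⟩ := hbad
    refine ⟨2 * n, by push_cast at hn ⊢; exact hn, l, y', d, a, hd1, hd2, ?_⟩
    rw [prime_eq, model_eq] at hlt
    exact hlt

end Pool.Agent.Results.MP_0ec542_nt.VerySmoothNumbers
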